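import Mathlib

/-! # MP_b53726_co: infinitely many Room squares with a complement that are not isomorphic to a
skew Room square (sides `13 ^ (4 k + 1)`). -/

namespace Pool.Agent.Results.MP_b53726_co.ComplementNotSkew

set_option linter.unusedSectionVars false

variable {I J : Type} [DecidableEq I] [DecidableEq J]

/-- A Room square with rows and columns indexed by `I` on the symbols `Option I`
(`none` is the symbol `0`, `some i` is the symbol `i`). -/
structure IsRoomSquare (R : I → I → Finset (Option I)) : Prop where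
  /-- every cell is empty or holds an unordered pair of distinct symbols -/
  cell : ∀ i j, R i j = ∅ ∨ (R i j).card = 2
  /-- every unordered pair of distinct symbols lies in exactly one cell -/
  pair : ∀ x y : Option I, x ≠ y → ∃! p : I × I, R p.1 p.2 = {x, y}
  /-- every symbol occurs exactly once in every row -/
  row : ∀ (i : I) (x : Option I), ∃! j, x ∈ R i j
  /-- every symbol occurs exactly once in every column -/
  col : ∀ (j : I) (x : Option I), ∃! i, x ∈ R i j

/-- Permuting rows, permuting columns and relabelling symbols. -/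
def Isomorphic (R R' : I → I → Finset (Option I)) : Prop :=
  ∃ (ρ γ : Equiv.Perm I) (σ : Equiv.Perm (Option I)),
    ∀ i j, R' (ρ i) (γ j) = (R i j).map σ.toEmbedding

/-- Cell `(i, i)` contains `{0, i}`. -/
def Standardized (R : I → I → Finset (Option I)) : Prop := ∀ i, R i i = {none, some i}

/-- `A + Aᵀ = J + I`. -/
def Skew (R : I → I → Finset (Option I)) : Prop :=
  ∀ i j, i ≠ j → Xor (R i j).Nonempty (R j i).Nonempty

/-- `A₁ + A₂ = J + I`. -/
def Complementary (R₁ R₂ : I → I → Finset (Option I)) : Prop :=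
  ∀ i j, i ≠ j → Xor (R₁ i j).Nonempty (R₂ i j).Nonempty

/-- `R` is isomorphic to a standardized square that has a complementary standardized square. -/
def HasComplement (R : I → I → Finset (Option I)) : Prop :=
  ∃ R₁ R₂ : I → I → Finset (Option I), IsRoomSquare R₁ ∧ IsRoomSquare R₂ ∧
    Standardized R₁ ∧ Standardized R₂ ∧ Complementary R₁ R₂ ∧ Isomorphic R R₁

/-- `R` is isomorphic to a skew (standardized) Room square. -/
def IsomorphicToSkew (R : I → I → Finset (Option I)) : Prop :=
  ∃ R' : I → I → Finset (Option I), IsRoomSquare R' ∧ Standardized R' ∧ Skew R' ∧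
    Isomorphic R R'

/-! ### Transport along an equivalence -/

/-- Transport of a square along `e : I ≃ J`. -/
def transport (e : I ≃ J) (R : I → I → Finset (Option I)) : J → J → Finset (Option J) :=
  fun i j => (R (e.symm i) (e.symm j)).map (Equiv.optionCongr e).toEmbedding

theorem mem_transport (e : I ≃ J) (R : I → I → Finset (Option I)) (i j : J) (x : Option I) :
    (Equiv.optionCongr e) x ∈ transport e R i j ↔ x ∈ R (e.symm i) (e.symm j) := by
  unfold transport
  rw [Finset.mem_map_equiv, Equiv.symm_apply_apply]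

theorem transport_nonempty (e : I ≃ J) (R : I → I → Finset (Option I)) (i j : J) :
    (transport e R i j).Nonempty ↔ (R (e.symm i) (e.symm j)).Nonempty := by
  unfold transport; exact Finset.map_nonempty

theorem isRoomSquare_transport (e : I ≃ J) {R : I → I → Finset (Option I)}
    (h : IsRoomSquare R) : IsRoomSquare (transport e R) := by
  refine ⟨fun i j => ?_, fun x y hxy => ?_, fun i x => ?_, fun j x => ?_⟩
  · rcases h.cell (e.symm i) (e.symm j) with h1 | h1
    · left; unfold transport; rw [h1, Finset.map_empty]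
    · right; unfold transport; rw [Finset.card_map, h1]
  · obtain ⟨x, rfl⟩ := (Equiv.optionCongr e).surjective x
    obtain ⟨y, rfl⟩ := (Equiv.optionCongr e).surjective y
    obtain ⟨p, hp, hu⟩ := h.pair x y (fun h => hxy (by rw [h]))
    have key : ∀ q : J × J, transport e R q.1 q.2 =
        {(Equiv.optionCongr e) x, (Equiv.optionCongr e) y} ↔
        R (e.symm q.1) (e.symm q.2) = {x, y} := by
      intro q
      have : ({(Equiv.optionCongr e) x, (Equiv.optionCongr e) y} : Finset (Option J)) =
          ({x, y} : Finset (Option I)).map (Equiv.optionCongr e).toEmbedding := by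
        rw [Finset.map_insert, Finset.map_singleton]; rfl
      rw [this]
      unfold transport
      exact Finset.map_inj
    refine ⟨(e p.1, e p.2), (key _).2 (by simpa using hp), ?_⟩
    · intro q hq
      have := hu (e.symm q.1, e.symm q.2) ((key _).1 hq)
      rw [← this]; simp
  · obtain ⟨x, rfl⟩ := (Equiv.optionCongr e).surjective x
    obtain ⟨j, hj, hu⟩ := h.row (e.symm i) x
    refine ⟨e j, (mem_transport e R _ _ _).2 (by simpa using hj), ?_⟩
    · intro k hk
      rw [← hu _ ((mem_transport e R _ _ _).1 hk)]; simp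
  · obtain ⟨x, rfl⟩ := (Equiv.optionCongr e).surjective x
    obtain ⟨i, hi, hu⟩ := h.col (e.symm j) x
    refine ⟨e i, (mem_transport e R _ _ _).2 (by simpa using hi), ?_⟩
    · intro k hk
      rw [← hu _ ((mem_transport e R _ _ _).1 hk)]; simp

theorem standardized_transport (e : I ≃ J) {R : I → I → Finset (Option I)}
    (h : Standardized R) : Standardized (transport e R) := by
  intro i
  unfold transport
  rw [h, Finset.map_insert, Finset.map_singleton]
  simp

theorem complementary_transport (e : I ≃ J) {R R' : I → I → Finset (Option I)}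
    (h : Complementary R R') : Complementary (transport e R) (transport e R') := by
  intro i j hij
  rw [transport_nonempty, transport_nonempty]
  exact h _ _ (fun h => hij (e.symm.injective h))

theorem isomorphic_refl (R : I → I → Finset (Option I)) : Isomorphic R R :=
  ⟨Equiv.refl _, Equiv.refl _, Equiv.refl _, fun i j => by
    ext x; simp⟩

/-- What being isomorphic to a skew square says about the square itself. -/
theorem matching_of_skew {R : I → I → Finset (Option I)} (h : IsomorphicToSkew R) :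
    ∃ (x : Option I) (M : I → I), (∀ i, x ∈ R i (M i)) ∧
      ∀ i j, i ≠ j → Xor (R i (M j)).Nonempty (R j (M i)).Nonempty := by
  obtain ⟨R', _, hst, hsk, ρ, γ, σ, hiso⟩ := h
  refine ⟨σ.symm none, fun i => γ.symm (ρ i), fun i => ?_, fun i j hij => ?_⟩
  · have h1 := hiso i (γ.symm (ρ i))
    rw [Equiv.apply_symm_apply, hst] at h1
    have h2 : (none : Option I) ∈ (R i (γ.symm (ρ i))).map σ.toEmbedding := by
      rw [← h1]; simp
    rw [Finset.mem_map_equiv] at h2
    exact h2
  · have h1 := hiso i (γ.symm (ρ j))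
    have h2 := hiso j (γ.symm (ρ i))
    rw [Equiv.apply_symm_apply] at h1 h2
    have h3 := hsk (ρ i) (ρ j) (fun h => hij (ρ.injective h))
    rw [h1, h2, Finset.map_nonempty, Finset.map_nonempty] at h3
    exact h3

theorem matching_transport (e : I ≃ J) {R : I → I → Finset (Option I)}
    (h : IsomorphicToSkew (transport e R)) :
    ∃ (x : Option I) (M : I → I), (∀ i, x ∈ R i (M i)) ∧
      ∀ i j, i ≠ j → Xor (R i (M j)).Nonempty (R j (M i)).Nonempty := by
  obtain ⟨x, M, h1, h2⟩ := matching_of_skew h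
  obtain ⟨x, rfl⟩ := (Equiv.optionCongr e).surjective x
  refine ⟨x, fun i => e.symm (M (e i)), fun i => ?_, fun i j hij => ?_⟩
  · have := h1 (e i)
    rw [mem_transport] at this
    simpa using this
  · have := h2 (e i) (e j) (fun h => hij (e.injective h))
    rw [transport_nonempty, transport_nonempty] at this
    simpa using this

/-! ### The cyclotomic squares -/

instance fact13 : Fact (Nat.Prime 13) := ⟨by norm_num⟩

section Field

variable {K : Type} [Field K] [DecidableEq K] (ι : ZMod 13 →+* K) (t : ℕ)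

/-- The Room square with `κ(r - s) = ± u` occupied, where `κ(x) = x ^ t`. -/
def RK (u : ZMod 13) (r s : K) : Finset (Option K) :=
  if r = s then {none, some r}
  else if (r - s) ^ t = ι u then {some (s + ι 2 * (r - s)), some (s + ι 7 * (r - s))}
  else if (r - s) ^ t = ι (-u) then {some (s + ι 3 * (r - s)), some (s + ι 4 * (r - s))}
  else ∅

variable {ι t}

theorem inj (a b : ZMod 13) (h : ι a = ι b) : a = b := ι.injective h

theorem pow_cast (ht : t % 12 = 3) (m : ZMod 13) : (ι m) ^ t = ι (m ^ 3) := by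
  rw [← map_pow]
  congr 1
  by_cases hm : m = 0
  · subst hm
    rw [zero_pow (by omega), zero_pow (by norm_num)]
  · have h12 : m ^ 12 = 1 := ZMod.pow_card_sub_one_eq_one hm
    conv_lhs => rw [← Nat.div_add_mod t 12, ht, pow_add, pow_mul, h12, one_pow, one_mul]

/-- The two equations `z = m e`, `κ(e) = c`. -/
theorem line (ht : t % 12 = 3) (hK : ∀ z : K, z ≠ 0 → z ^ (4 * t) = 1)
    (l : Finset (ZMod 13 × ZMod 13))
    (hl : ∀ w : ZMod 13, w ^ 4 = 1 → ∃ p ∈ l, p.1 ^ 3 * p.2 = w)
    (hlu : ∀ p ∈ l, ∀ q ∈ l, p.1 ^ 3 * p.2 = q.1 ^ 3 * q.2 → p = q)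
    (hl0 : ∀ p ∈ l, p.1 ≠ 0) (z : K) (hz : z ≠ 0) :
    ∃! q : K × (ZMod 13 × ZMod 13), q.2 ∈ l ∧ q.1 ^ t = ι q.2.2 ∧ z = ι q.2.1 * q.1 := by
  have hw : ∃ w : ZMod 13, w ^ 4 = 1 ∧ z ^ t = ι w := by
    have h4 : (z ^ t) ^ 4 = 1 := by rw [← pow_mul, mul_comm, hK z hz]
    have hfac : (z ^ t - 1) * (z ^ t + 1) * (z ^ t - ι 5) * (z ^ t - ι 8) = 0 := by
      have h5 : ι 5 * ι 8 = 1 := by rw [← map_mul, ← map_one ι]; congr 1
      have h8 : ι 5 + ι 8 = 0 := by rw [← map_add, ← map_zero ι]; congr 1
      linear_combination h4 + (z ^ t - 1) * (z ^ t + 1) * h5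
        - (z ^ t - 1) * (z ^ t + 1) * z ^ t * h8
    rcases mul_eq_zero.1 hfac with h | h
    · rcases mul_eq_zero.1 h with h | h
      · rcases mul_eq_zero.1 h with h | h
        · exact ⟨1, by decide, by rw [map_one]; exact sub_eq_zero.1 h⟩
        · exact ⟨-1, by decide, by rw [map_neg, map_one]; exact eq_neg_of_add_eq_zero_left h⟩
      · exact ⟨5, by decide, sub_eq_zero.1 h⟩
    · exact ⟨8, by decide, sub_eq_zero.1 h⟩
  obtain ⟨w, hw4, hzw⟩ := hw
  obtain ⟨p, hpl, hpw⟩ := hl w hw4
  have hp0 : ι p.1 ≠ 0 := by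
    intro h
    rw [← map_zero ι] at h
    exact hl0 p hpl (inj _ _ h)
  refine ⟨(z / ι p.1, p), ⟨hpl, ?_, ?_⟩, ?_⟩
  · show (z / ι p.1) ^ t = ι p.2
    rw [div_pow, pow_cast ht, hzw, ← hpw, map_mul]
    field_simp
  · show z = ι p.1 * (z / ι p.1)
    field_simp
  · rintro ⟨e, p'⟩ ⟨h1, h2, h3⟩
    have h4 : p'.1 ^ 3 * p'.2 = w := by
      apply inj (ι := ι)
      have h3' : z = ι p'.1 * e := h3
      rw [← hzw, h3', mul_pow, pow_cast ht, map_mul]
      rw [show e ^ t = ι p'.2 from h2]
    have h5 : p' = p := hlu p' h1 p hpl (h4.trans hpw.symm)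
    subst h5
    have h6 : e = z / ι p'.1 := by
      have h3' : z = ι p'.1 * e := h3
      rw [h3']; field_simp
    rw [h6]

/-- data for rows -/
def lrow (u : ZMod 13) : Finset (ZMod 13 × ZMod 13) := {(1, u), (6, u), (2, -u), (3, -u)}
/-- data for columns -/
def lcol (u : ZMod 13) : Finset (ZMod 13 × ZMod 13) := {(2, u), (7, u), (3, -u), (4, -u)}
/-- data for pairs -/
def lpair (u : ZMod 13) : Finset (ZMod 13 × ZMod 13) := {(5, u), (-5, u), (1, -u), (-1, -u)}

theorem some_mem_RK {u : ZMod 13} (hu : u ≠ 0) (r s y : K) (hrs : r ≠ s) :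
    some y ∈ RK ι t u r s ↔
      ((r - s) ^ t = ι u ∧ (y = s + ι 2 * (r - s) ∨ y = s + ι 7 * (r - s))) ∨
      ((r - s) ^ t = ι (-u) ∧ (y = s + ι 3 * (r - s) ∨ y = s + ι 4 * (r - s))) := by
  have hne : ι u ≠ ι (-u) := by
    intro h
    have h2 := inj _ _ h
    clear h
    revert u
    decide
  unfold RK
  rw [if_neg hrs]
  by_cases h1 : (r - s) ^ t = ι u
  · rw [if_pos h1]
    simp only [Finset.mem_insert, Finset.mem_singleton, Option.some.injEq]
    constructor
    · intro h; exact Or.inl ⟨h1, h⟩
    · rintro (⟨_, h⟩ | ⟨h2, _⟩)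
      · exact h
      · exact absurd (h1.symm.trans h2) hne
  · rw [if_neg h1]
    by_cases h2 : (r - s) ^ t = ι (-u)
    · rw [if_pos h2]
      simp only [Finset.mem_insert, Finset.mem_singleton, Option.some.injEq]
      constructor
      · intro h; exact Or.inr ⟨h2, h⟩
      · rintro (⟨h3, _⟩ | ⟨_, h⟩)
        · exact absurd h3 h1
        · exact h
    · rw [if_neg h2]
      simp only [Finset.notMem_empty, false_iff]
      rintro (⟨h3, _⟩ | ⟨h3, _⟩)
      · exact h1 h3
      · exact h2 h3

theorem none_mem_RK {u : ZMod 13} (r s : K) : none ∈ RK ι t u r s ↔ r = s := by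
  unfold RK
  split_ifs <;> simp_all

theorem forall_lrow {u : ZMod 13} (hu : u = 1 ∨ u = 5) :
    (∀ w : ZMod 13, w ^ 4 = 1 → ∃ p ∈ lrow u, p.1 ^ 3 * p.2 = w) ∧
      (∀ p ∈ lrow u, ∀ q ∈ lrow u, p.1 ^ 3 * p.2 = q.1 ^ 3 * q.2 → p = q) ∧
      ∀ p ∈ lrow u, p.1 ≠ 0 := by
  rcases hu with rfl | rfl <;> decide +kernel

theorem forall_lcol {u : ZMod 13} (hu : u = 1 ∨ u = 5) :
    (∀ w : ZMod 13, w ^ 4 = 1 → ∃ p ∈ lcol u, p.1 ^ 3 * p.2 = w) ∧
      (∀ p ∈ lcol u, ∀ q ∈ lcol u, p.1 ^ 3 * p.2 = q.1 ^ 3 * q.2 → p = q) ∧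
      ∀ p ∈ lcol u, p.1 ≠ 0 := by
  rcases hu with rfl | rfl <;> decide +kernel

theorem forall_lpair {u : ZMod 13} (hu : u = 1 ∨ u = 5) :
    (∀ w : ZMod 13, w ^ 4 = 1 → ∃ p ∈ lpair u, p.1 ^ 3 * p.2 = w) ∧
      (∀ p ∈ lpair u, ∀ q ∈ lpair u, p.1 ^ 3 * p.2 = q.1 ^ 3 * q.2 → p = q) ∧
      ∀ p ∈ lpair u, p.1 ≠ 0 := by
  rcases hu with rfl | rfl <;> decide +kernel

/-- membership in terms of the row -/
theorem mem_iff_row {u : ZMod 13} (hu : u ≠ 0) (r s y : K) (hrs : r ≠ s) :
    some y ∈ RK ι t u r s ↔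
      ∃ p ∈ lrow u, (r - s) ^ t = ι p.2 ∧ y - r = ι p.1 * (r - s) := by
  rw [some_mem_RK hu r s y hrs]
  have e1 : ι 1 = 1 := map_one ι
  have e2 : ι 2 = 1 + ι 1 := by rw [← map_one ι, ← map_add]; congr 1
  have e7 : ι 7 = 1 + ι 6 := by rw [← map_one ι, ← map_add]; congr 1
  have e3 : ι 3 = 1 + ι 2 := by rw [← map_one ι, ← map_add]; congr 1
  have e4 : ι 4 = 1 + ι 3 := by rw [← map_one ι, ← map_add]; congr 1
  unfold lrow
  constructor
  · rintro (⟨h, h' | h'⟩ | ⟨h, h' | h'⟩)
    · exact ⟨(1, u), by simp, h, by rw [h', e2]; ring⟩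
    · exact ⟨(6, u), by simp, h, by rw [h', e7]; ring⟩
    · exact ⟨(2, -u), by simp, h, by rw [h', e3]; ring⟩
    · exact ⟨(3, -u), by simp, h, by rw [h', e4]; ring⟩
  · rintro ⟨p, hp, h, h'⟩
    simp only [Finset.mem_insert, Finset.mem_singleton] at hp
    rcases hp with rfl | rfl | rfl | rfl
    · exact Or.inl ⟨h, Or.inl (by rw [e2]; linear_combination h')⟩
    · exact Or.inl ⟨h, Or.inr (by rw [e7]; linear_combination h')⟩
    · exact Or.inr ⟨h, Or.inl (by rw [e3]; linear_combination h')⟩
    · exact Or.inr ⟨h, Or.inr (by rw [e4]; linear_combination h')⟩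

/-- membership in terms of the column -/
theorem mem_iff_col {u : ZMod 13} (hu : u ≠ 0) (r s y : K) (hrs : r ≠ s) :
    some y ∈ RK ι t u r s ↔
      ∃ p ∈ lcol u, (r - s) ^ t = ι p.2 ∧ y - s = ι p.1 * (r - s) := by
  rw [some_mem_RK hu r s y hrs]
  unfold lcol
  constructor
  · rintro (⟨h, h' | h'⟩ | ⟨h, h' | h'⟩)
    · exact ⟨(2, u), by simp, h, by rw [h']; ring⟩
    · exact ⟨(7, u), by simp, h, by rw [h']; ring⟩
    · exact ⟨(3, -u), by simp, h, by rw [h']; ring⟩
    · exact ⟨(4, -u), by simp, h, by rw [h']; ring⟩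
  · rintro ⟨p, hp, h, h'⟩
    simp only [Finset.mem_insert, Finset.mem_singleton] at hp
    rcases hp with rfl | rfl | rfl | rfl
    · exact Or.inl ⟨h, Or.inl (by linear_combination h')⟩
    · exact Or.inl ⟨h, Or.inr (by linear_combination h')⟩
    · exact Or.inr ⟨h, Or.inl (by linear_combination h')⟩
    · exact Or.inr ⟨h, Or.inr (by linear_combination h')⟩

theorem RK_diag (u : ZMod 13) (r : K) : RK ι t u r r = {none, some r} := by
  unfold RK; rw [if_pos rfl]

theorem row_unique (ht : t % 12 = 3) (hK : ∀ z : K, z ≠ 0 → z ^ (4 * t) = 1)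
    {u : ZMod 13} (hu : u = 1 ∨ u = 5) (r : K) (x : Option K) :
    ∃! s, x ∈ RK ι t u r s := by
  have hu0 : u ≠ 0 := by rcases hu with rfl | rfl <;> decide
  rcases x with _ | y
  · exact ⟨r, (none_mem_RK r r).2 rfl, fun s hs => ((none_mem_RK r s).1 hs).symm⟩
  · by_cases hy : y = r
    · subst hy
      refine ⟨y, by show some y ∈ RK ι t u y y; rw [RK_diag]; simp, fun s hs => ?_⟩
      by_contra hne
      have hs' : some y ∈ RK ι t u y s := hs
      rw [mem_iff_row hu0 y s y (fun h => hne h.symm)] at hs'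
      obtain ⟨p, hp, _, h2⟩ := hs'
      rw [sub_self] at h2
      rcases mul_eq_zero.1 h2.symm with h3 | h3
      · exact (forall_lrow hu).2.2 p hp (inj _ _ (h3.trans (map_zero ι).symm))
      · exact hne (sub_eq_zero.1 h3).symm
    · obtain ⟨⟨e, p⟩, ⟨h1, h2, h3⟩, h4⟩ :=
        line (ι := ι) ht hK (lrow u) (forall_lrow hu).1 (forall_lrow hu).2.1 (forall_lrow hu).2.2 (y - r)
          (sub_ne_zero.2 hy)
      have h2' : e ^ t = ι p.2 := h2
      have h3' : y - r = ι p.1 * e := h3
      have he : e ≠ 0 := by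
        rintro rfl
        rw [mul_zero] at h3'
        exact hy (sub_eq_zero.1 h3')
      have hrs : r ≠ r - e := by
        intro h; apply he; linear_combination h
      refine ⟨r - e, ?_, fun s hs => ?_⟩
      · show some y ∈ RK ι t u r (r - e)
        rw [mem_iff_row hu0 r _ y hrs]
        exact ⟨p, h1, by rw [sub_sub_cancel, h2'], by rw [sub_sub_cancel, h3']⟩
      · have hs' : some y ∈ RK ι t u r s := hs
        by_cases hrs' : r = s
        · exfalso
          subst hrs'
          rw [RK_diag] at hs'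
          simp only [Finset.mem_insert, Finset.mem_singleton, Option.some.injEq, reduceCtorEq,
            false_or] at hs'
          exact hy hs'
        · rw [mem_iff_row hu0 r s y hrs'] at hs'
          obtain ⟨p', hp', h5, h6⟩ := hs'
          have := h4 (r - s, p') ⟨hp', h5, h6⟩
          have h7 : r - s = e := congrArg Prod.fst this
          rw [← h7]; ring

theorem col_unique (ht : t % 12 = 3) (hK : ∀ z : K, z ≠ 0 → z ^ (4 * t) = 1)
    {u : ZMod 13} (hu : u = 1 ∨ u = 5) (s : K) (x : Option K) :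
    ∃! r, x ∈ RK ι t u r s := by
  have hu0 : u ≠ 0 := by rcases hu with rfl | rfl <;> decide
  rcases x with _ | y
  · exact ⟨s, (none_mem_RK s s).2 rfl, fun r hr => (none_mem_RK r s).1 hr⟩
  · by_cases hy : y = s
    · subst hy
      refine ⟨y, by show some y ∈ RK ι t u y y; rw [RK_diag]; simp, fun r hr => ?_⟩
      by_contra hne
      have hs' : some y ∈ RK ι t u r y := hr
      rw [mem_iff_col hu0 r y y hne] at hs'
      obtain ⟨p, hp, _, h2⟩ := hs'
      rw [sub_self] at h2
      rcases mul_eq_zero.1 h2.symm with h3 | h3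
      · exact (forall_lcol hu).2.2 p hp (inj _ _ (h3.trans (map_zero ι).symm))
      · exact hne (sub_eq_zero.1 h3)
    · obtain ⟨⟨e, p⟩, ⟨h1, h2, h3⟩, h4⟩ :=
        line (ι := ι) ht hK (lcol u) (forall_lcol hu).1 (forall_lcol hu).2.1 (forall_lcol hu).2.2 (y - s)
          (sub_ne_zero.2 hy)
      have h2' : e ^ t = ι p.2 := h2
      have h3' : y - s = ι p.1 * e := h3
      have he : e ≠ 0 := by
        rintro rfl
        rw [mul_zero] at h3'
        exact hy (sub_eq_zero.1 h3')
      have hrs : s + e ≠ s := by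
        intro h; apply he; linear_combination h
      refine ⟨s + e, ?_, fun r hr => ?_⟩
      · show some y ∈ RK ι t u (s + e) s
        rw [mem_iff_col hu0 _ s y hrs]
        exact ⟨p, h1, by rw [add_sub_cancel_left, h2'], by rw [add_sub_cancel_left, h3']⟩
      · have hs' : some y ∈ RK ι t u r s := hr
        by_cases hrs' : r = s
        · exfalso
          subst hrs'
          rw [RK_diag] at hs'
          simp only [Finset.mem_insert, Finset.mem_singleton, Option.some.injEq, reduceCtorEq,
            false_or] at hs'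
          exact hy hs'
        · rw [mem_iff_col hu0 r s y hrs'] at hs'
          obtain ⟨p', hp', h5, h6⟩ := hs'
          have := h4 (r - s, p') ⟨hp', h5, h6⟩
          have h7 : r - s = e := congrArg Prod.fst this
          rw [← h7]; ring

/-- offset of the first element of a pair -/
def off (p : ZMod 13 × ZMod 13) : ZMod 13 :=
  if p.1 = 5 then 2 else if p.1 = -5 then 7 else if p.1 = 1 then 3 else 4

theorem RK_eq_pair {u : ZMod 13} (hu0 : u ≠ 0) (r s y y' : K) (hyy : y ≠ y') (hrs : r ≠ s) :
    RK ι t u r s = {some y, some y'} ↔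
      ∃ p ∈ lpair u, (r - s) ^ t = ι p.2 ∧ y' - y = ι p.1 * (r - s) ∧
        y = s + ι (off p) * (r - s) := by
  have e5 : ι 5 = ι 7 - ι 2 := by rw [← map_sub]; congr 1
  have en5 : ι (-5) = ι 2 - ι 7 := by rw [← map_sub]; congr 1
  have e1 : ι 1 = ι 4 - ι 3 := by rw [← map_sub]; congr 1
  have en1 : ι (-1) = ι 3 - ι 4 := by rw [← map_sub]; congr 1
  have o1 : off (5, u) = 2 := by simp [off]
  have o2 : off (-5, u) = 7 := by
    unfold off; rw [if_neg (by simp; decide), if_pos rfl]
  have o3 : off (1, -u) = 3 := by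
    unfold off; rw [if_neg (by simp; decide), if_neg (by simp; decide), if_pos rfl]
  have o4 : off (-1, -u) = 4 := by
    unfold off
    rw [if_neg (by simp; decide), if_neg (by simp; decide), if_neg (by simp; decide)]
  have hne : ι u ≠ ι (-u) := by
    intro h
    have h2 := inj _ _ h
    clear h o1 o2 o3 o4
    revert u
    decide
  constructor
  · intro h
    have hy : some y ∈ RK ι t u r s := by rw [h]; simp
    have hy' : some y' ∈ RK ι t u r s := by rw [h]; simp
    rw [some_mem_RK hu0 r s _ hrs] at hy hy'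
    rcases hy with ⟨h1, h2 | h2⟩ | ⟨h1, h2 | h2⟩ <;>
      rcases hy' with ⟨h3, h4 | h4⟩ | ⟨h3, h4 | h4⟩
    · exact absurd (h2.trans h4.symm) hyy
    · exact ⟨(5, u), by simp [lpair], h1, by rw [h2, h4, e5]; ring, by rw [o1]; exact h2⟩
    · exact absurd (h1.symm.trans h3) hne
    · exact absurd (h1.symm.trans h3) hne
    · exact ⟨(-5, u), by simp [lpair], h1, by rw [h2, h4, en5]; ring, by rw [o2]; exact h2⟩
    · exact absurd (h2.trans h4.symm) hyy
    · exact absurd (h1.symm.trans h3) hne
    · exact absurd (h1.symm.trans h3) hne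
    · exact absurd (h3.symm.trans h1) hne
    · exact absurd (h3.symm.trans h1) hne
    · exact absurd (h2.trans h4.symm) hyy
    · exact ⟨(1, -u), by simp [lpair], h1, by rw [h2, h4, e1]; ring, by rw [o3]; exact h2⟩
    · exact absurd (h3.symm.trans h1) hne
    · exact absurd (h3.symm.trans h1) hne
    · exact ⟨(-1, -u), by simp [lpair], h1, by rw [h2, h4, en1]; ring, by rw [o4]; exact h2⟩
    · exact absurd (h2.trans h4.symm) hyy
  · rintro ⟨p, hp, h1, h2, h3⟩
    simp only [lpair, Finset.mem_insert, Finset.mem_singleton] at hp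
    rcases hp with rfl | rfl | rfl | rfl
    · have h1' : (r - s) ^ t = ι u := h1
      have h2' : y' - y = ι 5 * (r - s) := h2
      rw [o1] at h3
      have h4 : y' = s + ι 7 * (r - s) := by
        rw [e5] at h2'; linear_combination h2' + h3
      unfold RK
      rw [if_neg hrs, if_pos h1', ← h3, ← h4]
    · have h1' : (r - s) ^ t = ι u := h1
      have h2' : y' - y = ι (-5) * (r - s) := h2
      rw [o2] at h3
      have h4 : y' = s + ι 2 * (r - s) := by
        rw [en5] at h2'; linear_combination h2' + h3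
      unfold RK
      rw [if_neg hrs, if_pos h1', ← h3, ← h4, Finset.pair_comm]
    · have h1' : (r - s) ^ t = ι (-u) := h1
      have h2' : y' - y = ι 1 * (r - s) := h2
      rw [o3] at h3
      have h4 : y' = s + ι 4 * (r - s) := by
        rw [e1] at h2'; linear_combination h2' + h3
      unfold RK
      rw [if_neg hrs, if_neg (fun h => hne (h.symm.trans h1')), if_pos h1', ← h3, ← h4]
    · have h1' : (r - s) ^ t = ι (-u) := h1
      have h2' : y' - y = ι (-1) * (r - s) := h2
      rw [o4] at h3
      have h4 : y' = s + ι 3 * (r - s) := by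
        rw [en1] at h2'; linear_combination h2' + h3
      unfold RK
      rw [if_neg hrs, if_neg (fun h => hne (h.symm.trans h1')), if_pos h1', ← h3, ← h4,
        Finset.pair_comm]

theorem pair_unique (ht : t % 12 = 3) (hK : ∀ z : K, z ≠ 0 → z ^ (4 * t) = 1)
    {u : ZMod 13} (hu : u = 1 ∨ u = 5) (x y : Option K) (hxy : x ≠ y) :
    ∃! p : K × K, RK ι t u p.1 p.2 = {x, y} := by
  have hu0 : u ≠ 0 := by rcases hu with rfl | rfl <;> decide
  have hnone : ∀ y : K, ∃! p : K × K, RK ι t u p.1 p.2 = {none, some y} := by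
    intro y
    refine ⟨(y, y), RK_diag u y, fun q hq => ?_⟩
    have h1 : none ∈ RK ι t u q.1 q.2 := by
      have hq' : RK ι t u q.1 q.2 = {none, some y} := hq
      rw [hq']; simp
    have h2 := (none_mem_RK q.1 q.2).1 h1
    have h3 : some y ∈ RK ι t u q.1 q.2 := by
      have hq' : RK ι t u q.1 q.2 = {none, some y} := hq
      rw [hq']; simp
    rw [← h2, RK_diag] at h3
    simp only [Finset.mem_insert, Finset.mem_singleton, Option.some.injEq, reduceCtorEq,
      false_or] at h3
    exact Prod.ext h3.symm (h2.symm.trans h3.symm)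
  rcases x with _ | y₁
  · rcases y with _ | y₂
    · exact absurd rfl hxy
    · exact hnone y₂
  · rcases y with _ | y₂
    · have := hnone y₁
      simpa only [Finset.pair_comm] using this
    · have hyy : y₁ ≠ y₂ := fun h => hxy (by rw [h])
      obtain ⟨⟨e, p⟩, ⟨h1, h2, h3⟩, h4⟩ :=
        line (ι := ι) ht hK (lpair u) (forall_lpair hu).1 (forall_lpair hu).2.1
          (forall_lpair hu).2.2 (y₂ - y₁) (sub_ne_zero.2 hyy.symm)
      have h2' : e ^ t = ι p.2 := h2
      have h3' : y₂ - y₁ = ι p.1 * e := h3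
      have he : e ≠ 0 := by
        rintro rfl
        rw [mul_zero] at h3'
        exact hyy (sub_eq_zero.1 h3').symm
      have hrs : (y₁ - ι (off p) * e) + e ≠ y₁ - ι (off p) * e := by
        intro h; apply he; linear_combination h
      have hsub : (y₁ - ι (off p) * e) + e - (y₁ - ι (off p) * e) = e := by ring
      refine ⟨((y₁ - ι (off p) * e) + e, y₁ - ι (off p) * e), ?_, fun q hq => ?_⟩
      · show RK ι t u ((y₁ - ι (off p) * e) + e) (y₁ - ι (off p) * e) = _
        rw [RK_eq_pair hu0 _ _ _ _ hyy hrs]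
        exact ⟨p, h1, by rw [hsub, h2'], by rw [hsub, h3'], by rw [hsub]; ring⟩
      · obtain ⟨r, s⟩ := q
        have hq' : RK ι t u r s = {some y₁, some y₂} := hq
        by_cases hrs' : r = s
        · exfalso
          subst hrs'
          rw [RK_diag] at hq'
          have : (none : Option K) ∈ ({some y₁, some y₂} : Finset (Option K)) := by
            rw [← hq']; simp
          simp at this
        · rw [RK_eq_pair hu0 _ _ _ _ hyy hrs'] at hq'
          obtain ⟨p', hp', h5, h6, h7⟩ := hq'
          have h8 := h4 (r - s, p') ⟨hp', h5, h6⟩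
          have h9 : r - s = e := congrArg Prod.fst h8
          have h10 : p' = p := congrArg Prod.snd h8
          rw [h10, h9] at h7
          have hs : s = y₁ - ι (off p) * e := by linear_combination -h7
          rw [← hs]
          refine Prod.ext ?_ rfl
          show r = s + e
          rw [← h9]; ring

theorem RK_cell {u : ZMod 13} (r s : K) :
    RK ι t u r s = ∅ ∨ (RK ι t u r s).card = 2 := by
  unfold RK
  by_cases h : r = s
  · right
    rw [if_pos h, Finset.card_pair (by simp)]
  · rw [if_neg h]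
    have he : r - s ≠ 0 := sub_ne_zero.2 h
    split_ifs with h1 h2
    · right
      rw [Finset.card_pair]
      intro h3
      have h4 := Option.some_injective _ h3
      have h5 : (ι 2 - ι 7) * (r - s) = 0 := by linear_combination h4
      rcases mul_eq_zero.1 h5 with h6 | h6
      · have := inj _ _ (sub_eq_zero.1 h6)
        revert this; decide
      · exact he h6
    · right
      rw [Finset.card_pair]
      intro h3
      have h4 := Option.some_injective _ h3
      have h5 : (ι 3 - ι 4) * (r - s) = 0 := by linear_combination h4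
      rcases mul_eq_zero.1 h5 with h6 | h6
      · have := inj _ _ (sub_eq_zero.1 h6)
        revert this; decide
      · exact he h6
    · left; rfl

theorem RK_room (ht : t % 12 = 3) (hK : ∀ z : K, z ≠ 0 → z ^ (4 * t) = 1)
    {u : ZMod 13} (hu : u = 1 ∨ u = 5) : IsRoomSquare (RK ι t u) :=
  ⟨fun i j => RK_cell i j, fun x y h => pair_unique ht hK hu x y h,
    fun i x => row_unique ht hK hu i x, fun j x => col_unique ht hK hu j x⟩

theorem RK_nonempty {u : ZMod 13} (r s : K) (hrs : r ≠ s) :
    (RK ι t u r s).Nonempty ↔ (r - s) ^ t = ι u ∨ (r - s) ^ t = ι (-u) := by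
  unfold RK
  rw [if_neg hrs]
  split_ifs with h1 h2
  · exact iff_of_true ⟨_, Finset.mem_insert_self _ _⟩ (Or.inl h1)
  · exact iff_of_true ⟨_, Finset.mem_insert_self _ _⟩ (Or.inr h2)
  · exact iff_of_false Finset.not_nonempty_empty (by rintro (h | h); exacts [h1 h, h2 h])

/-- the fourth roots of unity -/
theorem pow_cases (hK : ∀ z : K, z ≠ 0 → z ^ (4 * t) = 1) (z : K) (hz : z ≠ 0) :
    z ^ t = ι 1 ∨ z ^ t = ι (-1) ∨ z ^ t = ι 5 ∨ z ^ t = ι (-5) := by
  have h4 : (z ^ t) ^ 4 = 1 := by rw [← pow_mul, mul_comm, hK z hz]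
  have hfac : (z ^ t - 1) * (z ^ t + 1) * (z ^ t - ι 5) * (z ^ t - ι (-5)) = 0 := by
    have h5 : ι 5 * ι (-5) = 1 := by rw [← map_mul, ← map_one ι]; congr 1
    have h8 : ι 5 + ι (-5) = 0 := by rw [← map_add, ← map_zero ι]; congr 1
    linear_combination h4 + (z ^ t - 1) * (z ^ t + 1) * h5
      - (z ^ t - 1) * (z ^ t + 1) * z ^ t * h8
  rcases mul_eq_zero.1 hfac with h | h
  · rcases mul_eq_zero.1 h with h | h
    · rcases mul_eq_zero.1 h with h | h
      · exact Or.inl (by rw [map_one]; exact sub_eq_zero.1 h)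
      · exact Or.inr (Or.inl (by rw [map_neg, map_one]; exact eq_neg_of_add_eq_zero_left h))
    · exact Or.inr (Or.inr (Or.inl (sub_eq_zero.1 h)))
  · exact Or.inr (Or.inr (Or.inr (sub_eq_zero.1 h)))

theorem RK_complementary (hK : ∀ z : K, z ≠ 0 → z ^ (4 * t) = 1) :
    Complementary (RK ι t 1) (RK ι t 5) := by
  intro r s hrs
  rw [RK_nonempty r s hrs, RK_nonempty r s hrs]
  have d1 : ι 1 ≠ ι 5 := fun h => by have := inj _ _ h; revert this; decide
  have d2 : ι 1 ≠ ι (-5) := fun h => by have := inj _ _ h; revert this; decide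
  have d3 : ι (-1) ≠ ι 5 := fun h => by have := inj _ _ h; revert this; decide
  have d4 : ι (-1) ≠ ι (-5) := fun h => by have := inj _ _ h; revert this; decide
  rcases pow_cases (ι := ι) hK (r - s) (sub_ne_zero.2 hrs) with h | h | h | h
  · rw [h]; exact Or.inl ⟨Or.inl rfl, by rintro (h | h); exacts [d1 h, d2 h]⟩
  · rw [h]; exact Or.inl ⟨Or.inr rfl, by rintro (h | h); exacts [d3 h, d4 h]⟩
  · rw [h]; exact Or.inr ⟨Or.inl rfl, by rintro (h | h); exacts [d1 h.symm, d3 h.symm]⟩
  · rw [h]; exact Or.inr ⟨Or.inr rfl, by rintro (h | h); exacts [d2 h.symm, d4 h.symm]⟩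

/-- no standardization of `RK ι t 1` is skew -/
theorem RK_not_skew (ht : t % 12 = 3) (hK : ∀ z : K, z ≠ 0 → z ^ (4 * t) = 1)
    (x : Option K) (M : K → K) (hM : ∀ i, x ∈ RK ι t 1 i (M i))
    (hs : ∀ i j, i ≠ j → Xor (RK ι t 1 i (M j)).Nonempty (RK ι t 1 j (M i)).Nonempty) :
    False := by
  have hu : (1 : ZMod 13) = 1 ∨ (1 : ZMod 13) = 5 := Or.inl rfl
  have k1 : (1 : K) ^ t = ι 1 := by rw [one_pow, map_one]
  have kn1 : (-1 : K) ^ t = ι (-1) := by
    have := pow_cast (ι := ι) ht (-1)
    rw [map_neg, map_one] at this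
    rw [this]; congr 1
  have k3 : (ι 3) ^ t = ι 1 := by rw [pow_cast ht]; congr 1
  have kn4 : (ι (4 : ZMod 13)) ^ t = ι (-1) := by rw [pow_cast ht]; congr 1
  rcases x with _ | y
  · -- standardization at the symbol `none`
    have hM' : ∀ i, M i = i := fun i => ((none_mem_RK i (M i)).1 (hM i)).symm
    have h1 := hs 0 1 zero_ne_one
    rw [hM', hM', RK_nonempty _ _ zero_ne_one, RK_nonempty _ _ one_ne_zero, zero_sub, sub_zero,
      kn1, k1] at h1
    rcases h1 with ⟨_, h⟩ | ⟨_, h⟩
    · exact h (Or.inl rfl)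
    · exact h (Or.inr rfl)
  · -- standardization at the symbol `some y`
    have hMy : M y = y := by
      have h1 : some y ∈ RK ι t 1 y y := by rw [RK_diag]; simp
      exact (row_unique ht hK hu y (some y)).unique (hM y) h1
    have h30 : ι 3 ≠ 0 := fun h => by
      have := inj _ _ (h.trans (map_zero ι).symm); revert this; decide
    have h40 : ι (4 : ZMod 13) ≠ 0 := fun h => by
      have := inj _ _ (h.trans (map_zero ι).symm); revert this; decide
    have hMy1 : M (y + 1) = y - ι 3 := by
      have e1 : (1 : K) + ι 3 = ι 4 := by rw [← map_one ι, ← map_add]; congr 1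
      have hne : y + 1 ≠ y - ι 3 := by
        intro h
        apply h40
        rw [← e1]; linear_combination h
      have hsub : y + 1 - (y - ι 3) = ι 4 := by rw [← e1]; ring
      have h1 : some y ∈ RK ι t 1 (y + 1) (y - ι 3) := by
        rw [mem_iff_row (by decide) _ _ _ hne]
        refine ⟨(3, -1), by decide, ?_, ?_⟩
        · rw [hsub, kn4]
        · show y - (y + 1) = ι 3 * (y + 1 - (y - ι 3))
          rw [hsub, ← map_mul]
          have : ι (3 * 4) = -1 := by rw [← map_one ι, ← map_neg]; congr 1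
          rw [this]; ring
      exact (row_unique ht hK hu (y + 1) (some y)).unique (hM (y + 1)) h1
    have hyy : y ≠ y + 1 := by
      intro h
      have : (1 : K) = 0 := by linear_combination -h
      exact one_ne_zero this
    have h1 := hs y (y + 1) hyy
    have hne : y ≠ y - ι 3 := by
      intro h; apply h30; linear_combination h
    rw [hMy, hMy1, RK_nonempty _ _ hne, RK_nonempty _ _ hyy.symm, sub_sub_cancel,
      add_sub_cancel_left, k3, k1] at h1
    rcases h1 with ⟨_, h⟩ | ⟨_, h⟩
    · exact h (Or.inl rfl)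
    · exact h (Or.inl rfl)

end Field

/-! ### The theorem -/

/-- For infinitely many odd `r` there is a Room square of side `r` that has a complement but is
not isomorphic to any skew Room square. -/
theorem result :
    {r : ℕ | Odd r ∧ ∃ R : Fin r → Fin r → Finset (Option (Fin r)),
      IsRoomSquare R ∧ HasComplement R ∧ ¬ IsomorphicToSkew R}.Infinite := by
  have hmem : ∀ k : ℕ, 13 ^ (4 * k + 1) ∈
      {r : ℕ | Odd r ∧ ∃ R : Fin r → Fin r → Finset (Option (Fin r)),
        IsRoomSquare R ∧ HasComplement R ∧ ¬ IsomorphicToSkew R} := by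
    intro k
    classical
    let K := GaloisField 13 (4 * k + 1)
    have hcard : Nat.card K = 13 ^ (4 * k + 1) := GaloisField.card 13 (4 * k + 1) (by omega)
    have hfin : Finite K := Nat.finite_of_card_ne_zero (by rw [hcard]; positivity)
    let ι : ZMod 13 →+* K := algebraMap (ZMod 13) K
    obtain ⟨t, ht1, ht2⟩ : ∃ t, 13 ^ (4 * k + 1) = 4 * t + 1 ∧ t % 12 = 3 := by
      have h : 13 ^ (4 * k + 1) % 48 = 13 := by
        rw [pow_succ, pow_mul, Nat.mul_mod, Nat.pow_mod]
        norm_num
      exact ⟨13 ^ (4 * k + 1) / 4, by omega, by omega⟩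
    have hK : ∀ z : K, z ≠ 0 → z ^ (4 * t) = 1 := by
      intro z hz
      have := Fintype.ofFinite K
      have h1 := FiniteField.pow_card_sub_one_eq_one z hz
      rwa [← Nat.card_eq_fintype_card, hcard, ht1, Nat.add_sub_cancel] at h1
    let e : K ≃ Fin (13 ^ (4 * k + 1)) := Finite.equivFinOfCardEq hcard
    refine ⟨Odd.pow (by decide), transport e (RK ι t 1), ?_, ?_, ?_⟩
    · exact isRoomSquare_transport e (RK_room ht2 hK (Or.inl rfl))
    · refine ⟨transport e (RK ι t 1), transport e (RK ι t 5),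
        isRoomSquare_transport e (RK_room ht2 hK (Or.inl rfl)),
        isRoomSquare_transport e (RK_room ht2 hK (Or.inr rfl)),
        standardized_transport e (fun i => RK_diag 1 i),
        standardized_transport e (fun i => RK_diag 5 i),
        complementary_transport e (RK_complementary hK), isomorphic_refl _⟩
    · intro hskew
      obtain ⟨x, M, h1, h2⟩ := matching_transport e hskew
      exact RK_not_skew ht2 hK x M h1 h2
  refine Set.infinite_of_injective_forall_mem (f := fun k : ℕ => 13 ^ (4 * k + 1)) ?_ hmem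
  intro a b hab
  have := Nat.pow_right_injective (le_refl 2 |>.trans (by norm_num : 2 ≤ 13)) hab
  omega

end Pool.Agent.Results.MP_b53726_co.ComplementNotSkew
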